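import Pool.Agent.Lib_MP_92436f_lc.Final

/-!
# MP_92436f_lc: supersaturation for zero-rate list decoding

Let `L ≥ 2`, `k = ⌊L/2⌋` and `τ_L = 1/2 - C(2k,k)/2^(2k+1)`.  There are `A > 0` and `K` such that
for `0 < ε < 1` every binary code `C` with at least `A ε^(-K)` words has at least
`(A ε^(-K))^(-L) * C(|C|, L)` subsets of size `L` which lie in a Hamming ball of radius
`(τ_L + ε) n`.  Since `A ≥ L`, a code without `L` words in such a ball has fewer than
`A ε^(-K)` words: `m(L, ε) = O_L(ε^(-K))` for all `L`.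
-/

namespace Pool.Agent.Results.MP_92436f_lc.Supersaturation

open Finset

/-- the critical radius `τ_L = 1/2 - C(2k,k)/2^(2k+1)`, `k = ⌊L/2⌋` -/
noncomputable def tau (L : ℕ) : ℝ :=
  1 / 2 - ((2 * (L / 2)).choose (L / 2) : ℝ) / 2 ^ (2 * (L / 2) + 1)

/-- the subsets of size `L` of the code which lie in some closed Hamming ball of radius
`(τ_L + ε) n` -/
noncomputable def crowded (L n : ℕ) (ε : ℝ) (C : Finset (Fin n → Bool)) :
    Finset (Finset (Fin n → Bool)) :=
  (C.powersetCard L).filter fun T =>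
    ∃ z : Fin n → Bool, ∀ x ∈ T, (hammingDist x z : ℝ) ≤ (tau L + ε) * n

/-- the number of sets of size `N` between `T` and `C` -/
theorem card_between {α : Type*} [DecidableEq α] (C T : Finset α) (hT : T ⊆ C) (N : ℕ) :
    ((C.powersetCard N).filter fun S => T ⊆ S).card ≤ (C.card - T.card).choose (N - T.card) := by
  have h : ((C \ T).powersetCard (N - T.card)).card = (C.card - T.card).choose (N - T.card) := by
    rw [card_powersetCard, card_sdiff_of_subset hT]
  rw [← h]
  refine card_le_card_of_injOn (fun S => S \ T) ?_ ?_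
  · intro S hS
    rw [mem_coe, mem_filter, mem_powersetCard] at hS
    obtain ⟨⟨h1, h2⟩, h3⟩ := hS
    rw [mem_coe, mem_powersetCard]
    exact ⟨sdiff_subset_sdiff h1 le_rfl, by rw [card_sdiff_of_subset h3, h2]⟩
  · intro S hS S' hS' hSS
    rw [mem_coe, mem_filter] at hS hS'
    have h1 : S \ T ∪ T = S := sdiff_union_of_subset hS.2
    have h2 : S' \ T ∪ T = S' := sdiff_union_of_subset hS'.2
    simp only at hSS
    rw [← h1, ← h2, hSS]

/-- if every set of `N` words contains a crowded set of size `L`, there are many crowded sets -/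
theorem supersat {α : Type*} [DecidableEq α] (C : Finset α) (L N : ℕ) (G : Finset (Finset α))
    (hG : G ⊆ C.powersetCard L) (hN : N ≤ C.card)
    (h : ∀ S ∈ C.powersetCard N, ∃ T ∈ G, T ⊆ S) :
    C.card.choose L ≤ N.choose L * G.card := by
  have hne : (C.powersetCard N).Nonempty := powersetCard_nonempty.2 hN
  have hLN : L ≤ N := by
    obtain ⟨S, hS⟩ := hne
    obtain ⟨T, hT, hTS⟩ := h S hS
    have h1 := (mem_powersetCard.1 (hG hT)).2
    have h2 := (mem_powersetCard.1 hS).2
    have h3 := card_le_card hTS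
    omega
  have key := card_mul_le_card_mul' (fun (T S : Finset α) => T ⊆ S) (s := G)
    (t := C.powersetCard N) (n := 1) (m := (C.card - L).choose (N - L)) ?_ ?_
  · rw [card_powersetCard, mul_one] at key
    have h1 : C.card.choose N * N.choose L = C.card.choose L * (C.card - L).choose (N - L) :=
      Nat.choose_mul hLN
    have hpos : 0 < (C.card - L).choose (N - L) := Nat.choose_pos (by omega)
    have h2 : C.card.choose L * (C.card - L).choose (N - L)
        ≤ N.choose L * G.card * (C.card - L).choose (N - L) := by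
      rw [← h1]
      calc C.card.choose N * N.choose L ≤ (G.card * (C.card - L).choose (N - L)) * N.choose L :=
            Nat.mul_le_mul_right _ key
        _ = _ := by ring
    exact Nat.le_of_mul_le_mul_right h2 hpos
  · intro S hS
    obtain ⟨T, hT, hTS⟩ := h S hS
    exact card_pos.2 ⟨T, mem_filter.2 ⟨hT, hTS⟩⟩
  · intro T hT
    obtain ⟨h1, h2⟩ := mem_powersetCard.1 (hG hT)
    have := card_between C T h1 N
    rw [h2] at this
    exact this

/-- Supersaturated form of the polynomial bound: if a code has at least `A ε^(-K)` words, then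
at least the proportion `(A ε^(-K))^(-L)` of its subsets of size `L` lie in a ball of radius
`(τ_L + ε) n` (at least one such subset, because `A ≥ L`). -/
theorem result (L : ℕ) (hL : 2 ≤ L) : ∃ A : ℝ, (L : ℝ) ≤ A ∧ ∃ K : ℕ, ∀ ε : ℝ, 0 < ε → ε < 1 →
    ∀ (n : ℕ) (C : Finset (Fin n → Bool)), A * ε⁻¹ ^ K ≤ C.card →
      (C.card.choose L : ℝ) ≤ (A * ε⁻¹ ^ K) ^ L * (crowded L n ε C).card := by
  classical
  obtain ⟨C₀, K, hC₀, hball⟩ := LibMP92436f.ball_of_large (L / 2) (by omega)
  refine ⟨C₀ + 1 + L, by linarith, K, fun ε hε0 hε1 n C hC => ?_⟩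
  have hL0 : (0 : ℝ) ≤ L := Nat.cast_nonneg L
  have h1e : 1 ≤ ε⁻¹ ^ K := one_le_pow₀ (one_le_inv₀ hε0 |>.2 hε1.le)
  set N : ℕ := ⌊C₀ * ε⁻¹ ^ K⌋₊ + 1 with hNdef
  have hNle : (N : ℝ) ≤ (C₀ + 1 + L) * ε⁻¹ ^ K := by
    rw [hNdef]
    push_cast
    have := Nat.floor_le (by positivity : 0 ≤ C₀ * ε⁻¹ ^ K)
    have h2 : 0 ≤ (L : ℝ) * ε⁻¹ ^ K := by positivity
    nlinarith
  have hNlt : C₀ * ε⁻¹ ^ K < N := by
    rw [hNdef]
    push_cast
    exact Nat.lt_floor_add_one _
  have hNC : N ≤ C.card := by exact_mod_cast hNle.trans hC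
  have hs := supersat C L N (crowded L n ε C) (filter_subset _ _) hNC ?_
  · have h1 : (C.card.choose L : ℝ) ≤ (N.choose L : ℝ) * (crowded L n ε C).card := by
      exact_mod_cast hs
    refine h1.trans (mul_le_mul_of_nonneg_right ?_ (Nat.cast_nonneg _))
    calc (N.choose L : ℝ) ≤ (N : ℝ) ^ L := by exact_mod_cast Nat.choose_le_pow N L
      _ ≤ _ := pow_le_pow_left₀ (Nat.cast_nonneg _) hNle L
  · intro S hS
    obtain ⟨hSC, hSN⟩ := mem_powersetCard.1 hS
    obtain ⟨z, hz⟩ := hball ε hε0 hε1 n S (by rw [one_div, hSN]; exact hNlt)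
    obtain ⟨T, hTsub, hTcard⟩ := exists_subset_card_eq (s := S.filter (fun c => (hammingDist z c : ℝ) ≤
        ((1:ℝ)/2 - (Nat.choose (2*(L/2)) (L/2) : ℝ) / (2:ℝ)^(2*(L/2)+1) + ε) * (n:ℝ)))
        (n := L) (by omega)
    have hTS : T ⊆ S := hTsub.trans (filter_subset _ _)
    refine ⟨T, ?_, hTS⟩
    unfold crowded
    rw [mem_filter, mem_powersetCard]
    refine ⟨⟨hTS.trans hSC, hTcard⟩, z, fun x hx => ?_⟩
    have h2 := (mem_filter.1 (hTsub hx)).2
    rw [hammingDist_comm]
    exact h2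

end Pool.Agent.Results.MP_92436f_lc.Supersaturation
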